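import Mathlib
import Pool.Agent.TH351.LatticeConf

set_option autoImplicit false

/-!
# MP_fad2aa_co: extremal point-line configurations far from every lattice

The points are `(x, y)` and the lines are `y = s x - t` with `x, y, s, t` in boxes of the ring
`ℤ[2^(1/e)]`, `e` a large prime. By unique coordinates, a quotient of two elements of a box which
is a rational number has small height; hence a subset all of whose cross ratios are rational is
very small. So both alternatives of the question fail, for every `c, C > 0`.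
-/

namespace Pool.Agent.Results.MP_fad2aa_co.NotLattice

open Pool.Agent.TH351.RootRing Pool.Agent.TH351.ProjRat Pool.Agent.TH351.LatticeConf

/-- The real plane. -/
abbrev Pt := ℝ × ℝ

/-- Lines of the plane. -/
def IsLine (l : Set Pt) : Prop :=
  ∃ a b c : ℝ, (a ≠ 0 ∨ b ≠ 0) ∧ l = {p : Pt | a * p.1 + b * p.2 = c}

/-- The number of pairs of a point of `P` and a line of `L` containing it. -/
noncomputable def incidences (P : Finset Pt) (L : Finset (Set Pt)) : ℕ :=
  {x : Pt × Set Pt | x.1 ∈ P ∧ x.2 ∈ L ∧ x.1 ∈ x.2}.ncard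

/-- The projective transformation with matrix `M` maps the point `p` of the plane to the point `q`
of the plane (so `p` is not sent to the line at infinity). -/
def Maps (M : Matrix (Fin 3) (Fin 3) ℝ) (p q : Pt) : Prop :=
  ∃ c : ℝ, c ≠ 0 ∧ M.mulVec ![p.1, p.2, 1] = c • ![q.1, q.2, 1]

/-- The lattice section `{1, ..., a} × {1, ..., b}`. -/
def grid (a b : ℕ) : Set Pt :=
  {q | ∃ i j : ℕ, 1 ≤ i ∧ i ≤ a ∧ 1 ≤ j ∧ j ≤ b ∧ q = ((i : ℝ), (j : ℝ))}

/-- Some projective transformation maps `X` into a lattice section of size at most `s`. -/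
def InLatticeSection (X : Set Pt) (s : ℝ) : Prop :=
  ∃ M : Matrix (Fin 3) (Fin 3) ℝ, M.det ≠ 0 ∧ ∃ a b : ℕ, (a : ℝ) * b ≤ s ∧
    ∀ p ∈ X, ∃ q ∈ grid a b, Maps M p q

/-- Some projective transformation maps all points of `X` to points with rational coordinates. -/
def Rationalizable (X : Set Pt) : Prop :=
  ∃ M : Matrix (Fin 3) (Fin 3) ℝ, M.det ≠ 0 ∧ ∀ p ∈ X, ∃ q : ℚ × ℚ,
    Maps M p ((q.1 : ℝ), (q.2 : ℝ))

/-- The non-vertical line `y = s x - t` with dual point `q = (s, t)`. -/
def dualLine (q : Pt) : Set Pt := {p | p.2 = q.1 * p.1 - q.2}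

/-- The dual points of the non-vertical lines in `L`. -/
def dualPoints (L : Set (Set Pt)) : Set Pt := {q | dualLine q ∈ L}

/-- Alternative (a): at least `c m` of the `m` points of `P` are mapped by some projective
transformation into a lattice section of size at most `C m`. -/
def PointAlternative (c C : ℝ) (P : Finset Pt) : Prop :=
  ∃ P' ⊆ P, c * P.card ≤ P'.card ∧ InLatticeSection (P' : Set Pt) (C * P.card)

/-- Alternative (b): there are at least `c n` non-vertical lines among the `n` lines of `L` whose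
dual points are mapped by some projective transformation into a lattice section of size at most
`C n`. -/
def LineAlternative (c C : ℝ) (L : Finset (Set Pt)) : Prop :=
  ∃ L' ⊆ L, c * L.card ≤ L'.card ∧ (∀ l ∈ L', ∃ q, l = dualLine q) ∧
    InLatticeSection (dualPoints (L' : Set (Set Pt))) (C * L.card)

theorem rationalizable_of_section {X : Set Pt} {s : ℝ} (h : InLatticeSection X s) :
    Rationalizable X := by
  obtain ⟨M, hM, a, b, _, h⟩ := h
  refine ⟨M, hM, ?_⟩
  intro p hp
  obtain ⟨q, ⟨i, j, _, _, _, _, rfl⟩, hq⟩ := h p hp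
  refine ⟨((i : ℚ), (j : ℚ)), ?_⟩
  simpa using hq

theorem card_small {e N : ℕ} (he : e.Prime) (hN : 1 ≤ N) (hN' : (262144 * e ^ 7 + 4) ^ 4 ≤ N)
    (S : Finset Pt) (hS : ∀ p ∈ S, p.1 ∈ Bd e (4 * e * N ^ 2) ∧ p.2 ∈ Bd e (4 * e * N ^ 2))
    (h : Rationalizable (S : Set Pt)) : S.card ≤ N ^ 33 := by
  obtain ⟨M, hM, h⟩ := h
  have hH : 1 ≤ 4 * e * N ^ 2 := by
    have h1 := he.one_lt
    have h2 : 1 ≤ N ^ 2 := Nat.one_le_pow _ _ hN
    nlinarith
  have G : Good e (4 * e * N ^ 2) M S := ⟨he, hH, hM, hS, fun p hp => h p hp⟩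
  exact le_trans G.card_le (K_bound e N hN hN')

theorem pow_bound {e N : ℕ} {δ x : ℝ} (hN : 1 ≤ N) (hδ : 33 ≤ 3 * e * δ)
    (hδ0 : 0 ≤ δ) (hx : ((N : ℝ) ^ (3 * e)) ≤ x) : (N : ℝ) ^ 33 ≤ x ^ δ := by
  have hN1 : (1 : ℝ) ≤ N := by exact_mod_cast hN
  calc (N : ℝ) ^ 33 = (N : ℝ) ^ ((33 : ℕ) : ℝ) := (Real.rpow_natCast _ _).symm
    _ ≤ (N : ℝ) ^ ((3 * e : ℕ) * δ) := by
        apply Real.rpow_le_rpow_of_exponent_le hN1
        push_cast
        linarith
    _ = ((N : ℝ) ^ (3 * e)) ^ δ := by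
        rw [Real.rpow_mul (by positivity), Real.rpow_natCast]
    _ ≤ x ^ δ := Real.rpow_le_rpow (by positivity) hx hδ0

/-- For every `ε > 0` there are constants `C₁, c₂, c₃ > 0` such that for all `c, C > 0` and `N` there
are sets `P` of `m ≥ N` points and `L` of `n ≥ N` lines with `c₂ √n ≤ m ≤ C₁ n²` and
`I(P, L) ≥ c₃ m^(2/3) n^(2/3)` for which neither (a) nor (b) holds. Moreover no subset of more than
`m^ε` points of `P`, and no subset of `L` with more than `n^ε` lines, becomes (for `L`: has dual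
points which become) a set of points with rational coordinates, hence a subset of a lattice section
of any size, under any projective transformation. -/
theorem result : ∀ ε : ℝ, 0 < ε → ∃ C₁ c₂ c₃ : ℝ, 0 < C₁ ∧ 0 < c₂ ∧ 0 < c₃ ∧
    ∀ c C : ℝ, 0 < c → 0 < C → ∀ N : ℕ, ∃ (P : Finset Pt) (L : Finset (Set Pt)),
      N ≤ P.card ∧ N ≤ L.card ∧ (∀ l ∈ L, IsLine l) ∧
      c₂ * Real.sqrt L.card ≤ P.card ∧ (P.card : ℝ) ≤ C₁ * (L.card : ℝ) ^ 2 ∧
      c₃ * ((P.card : ℝ) ^ ((2 : ℝ) / 3) * (L.card : ℝ) ^ ((2 : ℝ) / 3)) ≤ incidences P L ∧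
      ¬ PointAlternative c C P ∧ ¬ LineAlternative c C L ∧
      (∀ P' ⊆ P, Rationalizable (P' : Set Pt) → (P'.card : ℝ) ≤ (P.card : ℝ) ^ ε) ∧
      (∀ L' ⊆ L, Rationalizable (dualPoints (L' : Set (Set Pt))) →
        (L'.card : ℝ) ≤ (L.card : ℝ) ^ ε) := by
  classical
  intro ε hε
  set δ : ℝ := min ε (1 / 2) with hδ
  have hδ0 : 0 < δ := lt_min hε (by norm_num)
  have hδε : δ ≤ ε := min_le_left _ _
  have hδ2 : δ ≤ 1 / 2 := min_le_right _ _
  obtain ⟨e, hge, he⟩ := Nat.exists_infinite_primes (⌈11 / δ⌉₊)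
  have heδ : 33 ≤ 3 * e * δ := by
    have h1 : 11 / δ ≤ e := le_trans (Nat.le_ceil _) (by exact_mod_cast hge)
    rw [div_le_iff₀ hδ0] at h1
    linarith
  have he1 : (1 : ℝ) ≤ e := by exact_mod_cast he.one_lt.le
  refine ⟨2 ^ e, 1, 1 / (4 * (e : ℝ)) ^ e, by positivity, by norm_num, by positivity, ?_⟩
  intro c C hc hC N₀
  -- the parameter
  obtain ⟨N, hN1, hN2, hN3, hN4⟩ : ∃ N : ℕ, N₀ ≤ N ∧ 1 ≤ N ∧ (262144 * e ^ 7 + 4) ^ 4 ≤ N ∧
      1 / c ^ 2 < (N : ℝ) := by
    refine ⟨max (max N₀ 1) (max ((262144 * e ^ 7 + 4) ^ 4) (⌊1 / c ^ 2⌋₊ + 1)), ?_, ?_, ?_, ?_⟩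
    · exact le_trans (le_max_left _ _) (le_max_left _ _)
    · exact le_trans (le_max_right _ _) (le_max_left _ _)
    · exact le_trans (le_max_left _ _) (le_max_right _ _)
    · refine lt_of_lt_of_le (Nat.lt_floor_add_one _) ?_
      exact_mod_cast le_trans (le_max_right _ _) (le_max_right _ _)
  have cP := Ps_card he N
  have cL := Ls_card he N
  have hA : 2 * N + 1 ≤ (2 * N + 1) ^ e := by
    calc 2 * N + 1 = (2 * N + 1) ^ 1 := (pow_one _).symm
      _ ≤ (2 * N + 1) ^ e := Nat.pow_le_pow_right (by omega) he.one_lt.le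
  have hNL : N ≤ (Ls e N).card := by
    rw [cL]
    calc N ≤ (2 * N + 1) * 1 := by omega
      _ ≤ (2 * N + 1) ^ e * (4 * e * N ^ 2 + 1) ^ e :=
        Nat.mul_le_mul hA (Nat.one_le_pow _ _ (by omega))
  have hLP : (Ls e N).card ≤ (Ps e N).card := by
    rw [cL, cP]
    apply Nat.mul_le_mul_left
    apply Nat.pow_le_pow_left
    nlinarith [Nat.zero_le (e * N ^ 2)]
  have hbig : N ^ (3 * e) ≤ (Ls e N).card := by
    rw [cL, ← mul_pow, pow_mul]
    apply Nat.pow_le_pow_left
    have : 1 ≤ e := he.one_lt.le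
    calc N ^ 3 = N * N ^ 2 := by ring
      _ ≤ (2 * N + 1) * (4 * e * N ^ 2 + 1) := by
        apply Nat.mul_le_mul (by omega)
        nlinarith [Nat.zero_le (N ^ 2)]
  have hbigL : ((N : ℝ) ^ (3 * e)) ≤ ((Ls e N).card : ℝ) := by exact_mod_cast hbig
  have hbigP : ((N : ℝ) ^ (3 * e)) ≤ ((Ps e N).card : ℝ) := by
    exact_mod_cast le_trans hbig hLP
  have hL1 : (1 : ℝ) ≤ (Ls e N).card := by
    exact_mod_cast le_trans hN2 hNL
  have hP1 : (1 : ℝ) ≤ (Ps e N).card := by
    exact_mod_cast le_trans hN2 (le_trans hNL hLP)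
  -- small rationalizable subsets
  have smallP : ∀ P' ⊆ Ps e N, Rationalizable (P' : Set Pt) →
      (P'.card : ℝ) ≤ ((Ps e N).card : ℝ) ^ δ := by
    intro P' hP' hr
    have h1 : P'.card ≤ N ^ 33 := by
      apply card_small he hN2 hN3 P' _ hr
      intro p hp
      have hp' := hP' hp
      unfold Ps at hp'
      rw [Finset.mem_product] at hp'
      refine ⟨Bd.mono ?_ (mem_box.mp hp'.1), mem_box.mp hp'.2⟩
      have : 1 ≤ e := he.one_lt.le
      nlinarith [Nat.mul_le_mul hN2 hN2, Nat.mul_le_mul this (Nat.mul_le_mul hN2 hN2),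
        Nat.mul_le_mul this (Nat.mul_le_mul (le_refl N) hN2)]
    calc (P'.card : ℝ) ≤ (N : ℝ) ^ 33 := by exact_mod_cast h1
      _ ≤ _ := pow_bound hN2 heδ hδ0.le hbigP
  have smallL : ∀ L' ⊆ Ls e N, Rationalizable (dualPoints (L' : Set (Set Pt))) →
      (L'.card : ℝ) ≤ ((Ls e N).card : ℝ) ^ δ := by
    intro L' hL' hr
    set S : Finset Pt := (Qs e N).filter (fun q => dualLine q ∈ L') with hSdef
    have hSL : S.card = L'.card := by
      have himg : S.image dualLine = L' := by
        ext l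
        rw [Finset.mem_image]
        constructor
        · rintro ⟨q, hq, rfl⟩
          rw [hSdef, Finset.mem_filter] at hq
          exact hq.2
        · intro hl
          have h1 := hL' hl
          unfold Ls at h1
          rw [Finset.mem_image] at h1
          obtain ⟨q, hq, rfl⟩ := h1
          refine ⟨q, ?_, rfl⟩
          rw [hSdef, Finset.mem_filter]
          exact ⟨hq, hl⟩
      rw [← himg]
      exact (Finset.card_image_of_injective _ lineOf_inj).symm
    have h1 : S.card ≤ N ^ 33 := by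
      apply card_small he hN2 hN3 S
      · intro p hp
        rw [hSdef, Finset.mem_filter] at hp
        have hp' := hp.1
        unfold Qs at hp'
        rw [Finset.mem_product] at hp'
        have : 1 ≤ e := he.one_lt.le
        refine ⟨Bd.mono ?_ (mem_box.mp hp'.1), Bd.mono ?_ (mem_box.mp hp'.2)⟩
        · nlinarith [Nat.mul_le_mul hN2 hN2, Nat.mul_le_mul this (Nat.mul_le_mul hN2 hN2),
            Nat.mul_le_mul this (Nat.mul_le_mul (le_refl N) hN2)]
        · nlinarith [Nat.zero_le (e * N ^ 2)]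
      · obtain ⟨M, hM, h⟩ := hr
        refine ⟨M, hM, ?_⟩
        intro q hq
        apply h
        rw [Finset.mem_coe, hSdef, Finset.mem_filter] at hq
        exact hq.2
    rw [← hSL]
    calc (S.card : ℝ) ≤ (N : ℝ) ^ 33 := by exact_mod_cast h1
      _ ≤ _ := pow_bound hN2 heδ hδ0.le hbigL
  -- the comparison with a positive proportion
  have prop : ∀ x : ℝ, (N : ℝ) ≤ x → 1 ≤ x → x ^ δ < c * x := by
    intro x hx hx1
    have h1 : x ^ δ ≤ Real.sqrt x := by
      rw [Real.sqrt_eq_rpow]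
      exact Real.rpow_le_rpow_of_exponent_le hx1 hδ2
    have h2 : 0 < Real.sqrt x := Real.sqrt_pos.mpr (by linarith)
    have h3 : 1 / c < Real.sqrt x := by
      apply Real.lt_sqrt_of_sq_lt
      rw [div_pow, one_pow]
      linarith
    have h4 : 1 < c * Real.sqrt x := by
      rw [div_lt_iff₀ hc] at h3
      linarith
    calc x ^ δ ≤ Real.sqrt x := h1
      _ < c * Real.sqrt x * Real.sqrt x := by nlinarith
      _ = c * x := by rw [mul_assoc, Real.mul_self_sqrt (by linarith)]
  refine ⟨Ps e N, Ls e N, ?_, ?_, ?_, ?_, ?_, ?_, ?_, ?_, ?_, ?_⟩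
  · exact le_trans hN1 (le_trans hNL hLP)
  · exact le_trans hN1 hNL
  · intro l hl
    unfold Ls at hl
    rw [Finset.mem_image] at hl
    obtain ⟨q, _, rfl⟩ := hl
    refine ⟨q.1, -1, q.2, Or.inr (by norm_num), ?_⟩
    ext p
    simp only [lineOf, Set.mem_ofPred_eq]
    constructor
    · intro h; linarith
    · intro h; linarith
  · rw [one_mul]
    have h1 : Real.sqrt ((Ls e N).card : ℝ) ≤ (Ls e N).card := by
      rw [Real.sqrt_le_left (by linarith)]
      nlinarith
    exact le_trans h1 (by exact_mod_cast hLP)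
  · have h1 : ((Ps e N).card : ℝ) ≤ 2 ^ e * (Ls e N).card := by
      have : (Ps e N).card ≤ 2 ^ e * (Ls e N).card := by
        rw [cP, cL]
        calc (2 * N + 1) ^ e * (8 * e * N ^ 2 + 1) ^ e
            ≤ (2 * N + 1) ^ e * (2 * (4 * e * N ^ 2 + 1)) ^ e := by
              apply Nat.mul_le_mul_left
              apply Nat.pow_le_pow_left
              nlinarith
          _ = 2 ^ e * ((2 * N + 1) ^ e * (4 * e * N ^ 2 + 1) ^ e) := by
              rw [mul_pow]
              ring
      exact_mod_cast this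
    refine le_trans h1 ?_
    apply mul_le_mul_of_nonneg_left _ (by positivity)
    nlinarith
  · exact arith e N he.one_lt.le _ _ _ (by rw [cP]) (by rw [cL])
      (by exact_mod_cast inc_ge he N)
  · rintro ⟨P', hP', hcard, hs⟩
    have h1 := smallP P' hP' (rationalizable_of_section hs)
    have h2 := prop _ (by exact_mod_cast le_trans hNL hLP) hP1
    linarith
  · rintro ⟨L', hL', hcard, _, hs⟩
    have h1 := smallL L' hL' (rationalizable_of_section hs)
    have h2 := prop _ (by exact_mod_cast hNL) hL1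
    linarith
  · intro P' hP' hr
    exact le_trans (smallP P' hP' hr) (Real.rpow_le_rpow_of_exponent_le hP1 hδε)
  · intro L' hL' hr
    exact le_trans (smallL L' hL' hr) (Real.rpow_le_rpow_of_exponent_le hL1 hδε)

end Pool.Agent.Results.MP_fad2aa_co.NotLattice
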